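import Pool.Agent.Helper49.SH.Df

/-!
PROJECT ALLQ (MP_274814_nt), block E1: products of theta functions.
-/

set_option autoImplicit false

namespace Pool.Agent.Helper87.SH

open Finset Complex Pool.Agent.Helper49.SH

variable {ι ι' : Type} [Fintype ι] [Fintype ι']

theorem Eb_add_form (E E' : ι → ι → ℚ) (w w' : ι → ℂ) :
    Eb (E + E') w w' = Eb E w w' + Eb E' w w' := by
  simp only [Eb, ← Finset.sum_add_distrib]
  refine Finset.sum_congr rfl fun i _ => Finset.sum_congr rfl fun j _ => ?_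
  simp only [Pi.add_apply]
  push_cast
  ring

theorem Eb_add_right (E : ι → ι → ℚ) (w v v' : ι → ℂ) :
    Eb E w (v + v') = Eb E w v + Eb E w v' := by
  simp only [Eb, ← Finset.sum_add_distrib, Pi.add_apply, mul_add]

theorem Eb_smul_right (E : ι → ι → ℚ) (w v : ι → ℂ) (c : ℂ) :
    Eb E w (c • v) = c * Eb E w v := by
  simp only [Eb, Finset.mul_sum, Pi.smul_apply, smul_eq_mul]
  refine Finset.sum_congr rfl fun i _ => Finset.sum_congr rfl fun j _ => ?_
  ring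

/-- the translation law for all multiples of the period multiplier -/
theorem per_mul {E : ι → ι → ℚ} {F : (ι → ℂ) → ℂ} {k : ℕ}
    (h : ∀ (l : ι → ℤ) (w : ι → ℂ),
      F (w + (k : ℂ) • zv l) = exp (-(Real.pi * I * k * Eb E (zv l) w)) * F w) (n : ℕ)
    (l : ι → ℤ) (w : ι → ℂ) :
    F (w + ((k * n : ℕ) : ℂ) • zv l) =
      exp (-(Real.pi * I * (k * n : ℕ) * Eb E (zv l) w)) * F w := by
  have e : ((k * n : ℕ) : ℂ) • zv l = (k : ℂ) • zv (fun i => (n : ℤ) * l i) := by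
    funext i
    simp only [zv, Pi.smul_apply, smul_eq_mul]
    push_cast
    ring
  have e2 : Eb E (zv (fun i => (n : ℤ) * l i)) w = n * Eb E (zv l) w := by
    simp only [Eb, Finset.mul_sum, zv]
    refine Finset.sum_congr rfl fun i _ => Finset.sum_congr rfl fun j _ => ?_
    push_cast
    ring
  rw [e, h, e2]
  congr 2
  push_cast
  ring

theorem AT_mul {E E' : ι → ι → ℚ} {N : Submodule ℂ (ι → ℂ)} {F G : (ι → ℂ) → ℂ}
    (h : AT E N F) (h' : AT E' N G) : AT (E + E') N (F * G) := by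
  refine ⟨h.diff.mul h'.diff, ?_, ?_⟩
  · intro e he w
    have := fderiv_mul (h.diff w) (h'.diff w)
    rw [this]
    simp only [add_apply, smul_apply, smul_eq_mul,
      Pi.mul_apply]
    rw [h.hol e he w, h'.hol e he w, Eb_add_form]
    ring
  · obtain ⟨k, hk, hF⟩ := h.per
    obtain ⟨k', hk', hG⟩ := h'.per
    refine ⟨k * k', Nat.one_le_iff_ne_zero.mpr (by positivity), ?_⟩
    intro l w
    have h1 := per_mul hF k' l w
    have h2 := per_mul hG k l w
    rw [mul_comm k' k] at h2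
    simp only [Pi.mul_apply]
    rw [h1, h2, Eb_add_form, mul_add, neg_add, exp_add]
    ring

theorem AlgT_mul {E E' : ι → ι → ℚ} {N : Submodule ℂ (ι → ℂ)} {F G : (ι → ℂ) → ℂ}
    (h : AlgT E N F) (h' : AlgT E' N G) : AlgT (E + E') N (F * G) :=
  ⟨AT_mul h.toAT h'.toAT, fun t => (h.val t).mul (h'.val t)⟩

theorem nab_mul {E E' : ι → ι → ℚ} {F G : (ι → ℂ) → ℂ} (h : Differentiable ℂ F)
    (h' : Differentiable ℂ G) (e w : ι → ℂ) :
    nab (E + E') e (F * G) w = nab E e F w * G w + F w * nab E' e G w := by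
  have := fderiv_mul (h w) (h' w)
  simp only [nab]
  rw [this]
  simp only [add_apply, smul_apply, smul_eq_mul,
    Pi.mul_apply]
  rw [Eb_add_form]
  ring

/-! ### product of two tori -/

/-- first projection -/
noncomputable def inlL : (ι ⊕ ι' → ℂ) →L[ℂ] (ι → ℂ) :=
  ContinuousLinearMap.pi fun i => ContinuousLinearMap.proj (Sum.inl i)

/-- second projection -/
noncomputable def inrL : (ι ⊕ ι' → ℂ) →L[ℂ] (ι' → ℂ) :=
  ContinuousLinearMap.pi fun i => ContinuousLinearMap.proj (Sum.inr i)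

theorem inlL_apply (w : ι ⊕ ι' → ℂ) : inlL w = fun i => w (Sum.inl i) := rfl

theorem inrL_apply (w : ι ⊕ ι' → ℂ) : inrL w = fun i => w (Sum.inr i) := rfl

theorem Eb_dsum (E : ι → ι → ℚ) (E' : ι' → ι' → ℚ) (w w' : ι ⊕ ι' → ℂ) :
    Eb (dsum E E') w w' = Eb E (fun i => w (Sum.inl i)) (fun i => w' (Sum.inl i)) +
      Eb E' (fun i => w (Sum.inr i)) (fun i => w' (Sum.inr i)) := by
  simp only [Eb, Fintype.sum_sum_type, dsum]
  simp

theorem fderiv_inl {F : (ι → ℂ) → ℂ} (h : Differentiable ℂ F) (w e : ι ⊕ ι' → ℂ) :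
    fderiv ℂ (fun w : ι ⊕ ι' → ℂ => F (fun i => w (Sum.inl i))) w e =
      fderiv ℂ F (fun i => w (Sum.inl i)) (fun i => e (Sum.inl i)) := by
  have h1 : HasFDerivAt (fun w : ι ⊕ ι' → ℂ => F (inlL w))
      ((fderiv ℂ F (inlL w)).comp inlL) w :=
    (h (inlL w)).hasFDerivAt.comp w inlL.hasFDerivAt
  have h2 := h1.fderiv
  simp only [inlL_apply] at h2
  rw [h2]
  rfl

theorem fderiv_inr {F : (ι' → ℂ) → ℂ} (h : Differentiable ℂ F) (w e : ι ⊕ ι' → ℂ) :
    fderiv ℂ (fun w : ι ⊕ ι' → ℂ => F (fun i => w (Sum.inr i))) w e =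
      fderiv ℂ F (fun i => w (Sum.inr i)) (fun i => e (Sum.inr i)) := by
  have h1 : HasFDerivAt (fun w : ι ⊕ ι' → ℂ => F (inrL w))
      ((fderiv ℂ F (inrL w)).comp inrL) w :=
    (h (inrL w)).hasFDerivAt.comp w inrL.hasFDerivAt
  have h2 := h1.fderiv
  simp only [inrL_apply] at h2
  rw [h2]
  rfl

theorem diff_inl {F : (ι → ℂ) → ℂ} (h : Differentiable ℂ F) :
    Differentiable ℂ (fun w : ι ⊕ ι' → ℂ => F (fun i => w (Sum.inl i))) :=
  h.comp (inlL (ι := ι) (ι' := ι')).differentiable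

theorem diff_inr {F : (ι' → ℂ) → ℂ} (h : Differentiable ℂ F) :
    Differentiable ℂ (fun w : ι ⊕ ι' → ℂ => F (fun i => w (Sum.inr i))) :=
  h.comp (inrL (ι := ι) (ι' := ι')).differentiable

theorem fderiv_prod {F : (ι → ℂ) → ℂ} {F' : (ι' → ℂ) → ℂ} (h : Differentiable ℂ F)
    (h' : Differentiable ℂ F') (w e : ι ⊕ ι' → ℂ) :
    fderiv ℂ (fun w : ι ⊕ ι' → ℂ => F (fun i => w (Sum.inl i)) * F' (fun i => w (Sum.inr i)))
        w e =
      F (fun i => w (Sum.inl i)) * fderiv ℂ F' (fun i => w (Sum.inr i)) (fun i => e (Sum.inr i)) +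
      fderiv ℂ F (fun i => w (Sum.inl i)) (fun i => e (Sum.inl i)) *
        F' (fun i => w (Sum.inr i)) := by
  have := fderiv_fun_mul (diff_inl (ι' := ι') h w) (diff_inr (ι := ι) h' w)
  rw [this]
  simp only [add_apply, smul_apply, smul_eq_mul]
  rw [fderiv_inl h, fderiv_inr h']
  ring

theorem AT_prod {E : ι → ι → ℚ} {N : Submodule ℂ (ι → ℂ)} {F : (ι → ℂ) → ℂ}
    {E' : ι' → ι' → ℚ} {N' : Submodule ℂ (ι' → ℂ)} {F' : (ι' → ℂ) → ℂ}
    (h : AT E N F) (h' : AT E' N' F') :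
    AT (dsum E E') (Np N N')
      (fun w => F (fun i => w (Sum.inl i)) * F' (fun i => w (Sum.inr i))) := by
  refine ⟨(diff_inl h.diff).mul (diff_inr h'.diff), ?_, ?_⟩
  · intro e he w
    rw [fderiv_prod h.diff h'.diff, Eb_dsum, h.hol _ he.1, h'.hol _ he.2]
    ring
  · obtain ⟨k, hk, hF⟩ := h.per
    obtain ⟨k', hk', hG⟩ := h'.per
    refine ⟨k * k', Nat.one_le_iff_ne_zero.mpr (by positivity), ?_⟩
    intro l w
    have h1 := per_mul hF k' (fun i => l (Sum.inl i)) (fun i => w (Sum.inl i))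
    have h2 := per_mul hG k (fun i => l (Sum.inr i)) (fun i => w (Sum.inr i))
    rw [mul_comm k' k] at h2
    have e1 : (fun i => (w + ((k * k' : ℕ) : ℂ) • zv l) (Sum.inl i)) =
        (fun i => w (Sum.inl i)) + ((k * k' : ℕ) : ℂ) • zv (fun i => l (Sum.inl i)) := rfl
    have e2 : (fun i => (w + ((k * k' : ℕ) : ℂ) • zv l) (Sum.inr i)) =
        (fun i => w (Sum.inr i)) + ((k * k' : ℕ) : ℂ) • zv (fun i => l (Sum.inr i)) := rfl
    have e3 : (fun i => zv l (Sum.inl i)) = zv (fun i => l (Sum.inl i)) := rfl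
    have e4 : (fun i => zv l (Sum.inr i)) = zv (fun i => l (Sum.inr i)) := rfl
    simp only [e1, e2]
    rw [h1, h2, Eb_dsum, e3, e4, mul_add, neg_add, exp_add]
    ring

theorem AlgT_prod {E : ι → ι → ℚ} {N : Submodule ℂ (ι → ℂ)} {F : (ι → ℂ) → ℂ}
    {E' : ι' → ι' → ℚ} {N' : Submodule ℂ (ι' → ℂ)} {F' : (ι' → ℂ) → ℂ}
    (h : AlgT E N F) (h' : AlgT E' N' F') :
    AlgT (dsum E E') (Np N N')
      (fun w => F (fun i => w (Sum.inl i)) * F' (fun i => w (Sum.inr i))) :=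
  ⟨AT_prod h.toAT h'.toAT, fun t =>
    (h.val fun i => t (Sum.inl i)).mul (h'.val fun i => t (Sum.inr i))⟩

theorem nab_prod {E : ι → ι → ℚ} {F : (ι → ℂ) → ℂ} {E' : ι' → ι' → ℚ} {F' : (ι' → ℂ) → ℂ}
    (h : Differentiable ℂ F) (h' : Differentiable ℂ F') (e w : ι ⊕ ι' → ℂ) :
    nab (dsum E E') e
        (fun w => F (fun i => w (Sum.inl i)) * F' (fun i => w (Sum.inr i))) w =
      nab E (fun i => e (Sum.inl i)) F (fun i => w (Sum.inl i)) * F' (fun i => w (Sum.inr i)) +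
      F (fun i => w (Sum.inl i)) *
        nab E' (fun i => e (Sum.inr i)) F' (fun i => w (Sum.inr i)) := by
  simp only [nab]
  rw [fderiv_prod h h', Eb_dsum]
  ring

end Pool.Agent.Helper87.SH
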